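import Pool.Agent.X35.GM.Cumul
import Pool.Agent.Y854.GM.Win

/-! Windows without exceptional integers, for countably many sets of exceptional integers at once. -/

set_option autoImplicit false

namespace Pool.Agent.X35.GM

theorem shell_le (S : Set ℤ) (i : ℕ) : ((shell S i).ncard : ℝ) ≤ 4 * 2 ^ i := by
  have h1 : shell S i ⊆ (Finset.Ioo (-(2 ^ (i + 1)) : ℤ) (2 ^ (i + 1)) : Finset ℤ) := by
    rintro a ⟨-, -, h⟩
    rw [abs_lt] at h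
    simpa using h
  have h2 := Set.ncard_le_ncard h1 (Finset.finite_toSet _)
  rw [Set.ncard_coe_finset, Int.card_Ioo] at h2
  have h3 : ((2 : ℤ) ^ (i + 1) - -(2 ^ (i + 1)) - 1).toNat ≤ 4 * 2 ^ i := by
    have h4 : (2 : ℤ) ^ (i + 1) = 2 * 2 ^ i := by ring
    apply Int.toNat_le.2
    push_cast
    linarith
  exact_mod_cast h2.trans h3

/-- **windows for countably many sets of integers**: only the large shells matter -/
theorem win_many {ι : Type} [Countable ι] (S : ι → Set ℤ) {v : ℕ → ℝ} {s τ θ : ℝ} (hv1 : ∀ n, 1 ≤ v n) (hτ : 0 ≤ τ)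
    (hv : ∀ t : ℝ, τ < t → Summable (fun i => v i ^ (-t))) (hs : 0 ≤ s) (hθ : θ < 1)
    (hS : ∀ a : ι, ∃ C : ℝ, ∃ i₁ : ℕ, ∀ i : ℕ, i₁ ≤ i → ((shell (S a) i).ncard : ℝ) ≤ C * ((2 : ℝ) ^ i) ^ s) :
    ∃ E : Set ℝ, dimH E ≤ ENNReal.ofReal ((s + τ) / (1 - θ)) ∧ ∀ α : ℝ, 0 < α → α ∉ E → ∀ a : ι,
      ∃ i₀ : ℕ, ∀ i : ℕ, i₀ ≤ i → ∀ t ∈ S a, (v i) ^ θ < |(|(t : ℝ)|) - α * v i| := by
  have key : ∀ a : ι, ∃ E : Set ℝ, dimH E ≤ ENNReal.ofReal ((s + τ) / (1 - θ)) ∧ ∀ α : ℝ, 0 < α → α ∉ E →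
      ∃ i₀ : ℕ, ∀ i : ℕ, i₀ ≤ i → ∀ t ∈ S a, (v i) ^ θ < |(|(t : ℝ)|) - α * v i| := by
    intro a
    refine Pool.Agent.Y854.GM.windows (S a) (fun t : ℤ => |(t : ℝ)|) hv1 hτ hv hs hθ ?_
    refine cumul (S a) hs ?_
    intro ε hε
    obtain ⟨C, i₁, hC⟩ := hS a
    refine ⟨|C| + 4 * 2 ^ i₁, fun i => ?_⟩
    have hT1 : (1 : ℝ) ≤ (2 : ℝ) ^ i := one_le_pow₀ (by norm_num)
    have hTs : ((2 : ℝ) ^ i) ^ s ≤ ((2 : ℝ) ^ i) ^ (s + ε) := Real.rpow_le_rpow_of_exponent_le hT1 (by linarith)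
    have hT0 : (1 : ℝ) ≤ ((2 : ℝ) ^ i) ^ (s + ε) := Real.one_le_rpow hT1 (by linarith)
    rcases lt_or_ge i i₁ with h | h
    · have h1 := shell_le (S a) i
      have h2 : (2 : ℝ) ^ i ≤ 2 ^ i₁ := pow_le_pow_right₀ (by norm_num) h.le
      have h3 := abs_nonneg C
      nlinarith
    · have h1 := hC i h
      have h2 : C * ((2 : ℝ) ^ i) ^ s ≤ |C| * ((2 : ℝ) ^ i) ^ (s + ε) := by
        calc C * ((2 : ℝ) ^ i) ^ s ≤ |C| * ((2 : ℝ) ^ i) ^ s := mul_le_mul_of_nonneg_right (le_abs_self C) (by positivity)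
          _ ≤ |C| * ((2 : ℝ) ^ i) ^ (s + ε) := mul_le_mul_of_nonneg_left hTs (abs_nonneg C)
      have h3 : (0 : ℝ) ≤ 4 * 2 ^ i₁ := by positivity
      nlinarith
  choose E hE hE2 using key
  refine ⟨⋃ a, E a, ?_, fun α hα hαE a => ?_⟩
  · rw [dimH_iUnion]
    exact iSup_le hE
  · exact hE2 a α hα (fun h => hαE (Set.mem_iUnion.2 ⟨a, h⟩))

end Pool.Agent.X35.GM
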