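import Pool.Agent.X35.GM.Seq

/-! Boxes at consecutive primes, for all the integers close to the members of a thin sequence. -/

set_option autoImplicit false

namespace Pool.Agent.X35.GM

open Finset Pool.Agent.TH869.SQ Pool.Agent.TH869.EVF

/-- **boxes at consecutive primes along sequences** -/
theorem consecutive_seq (s : ℕ) (hs : 1 ≤ s) (δ : ℝ) (hδ : 0 < δ) :
    ∃ κ C : ℝ, 0 < κ ∧ κ ≤ 1 ∧ 1 ≤ C ∧ ∀ {ι : Type} [Countable ι] (x : ι → ℕ → ℕ → ℝ),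
      (∀ a p n, x a p (n + p) = x a p n) →
      ∀ (v : ℕ → ℝ) (τ θ : ℝ), (∀ i, 1 ≤ v i) → 0 ≤ τ → θ < 1 → Pool.Agent.Y854.GM.ExpLe v τ →
      ∃ E : Set ℝ, dimH E ≤ ENNReal.ofReal ((1 - κ + τ) / (1 - θ)) ∧ ∀ α : ℝ, 0 < α → α ∉ E → ∀ a : ι,
        ∃ i₀ : ℕ, ∀ i : ℕ, i₀ ≤ i → ∀ n : ℕ, |(n : ℝ) - α * v i| ≤ (v i) ^ θ →
          0 < n ∧ ∀ K : ℕ, (K : ℝ) ≤ (n : ℝ) ^ κ → ∀ I : Fin s → Set ℝ, (∀ i, (I i).OrdConnected) →
          |∑ k ∈ range K, (ind I (fun i => x a (pr (k + i)) n) -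
            ∏ i : Fin s, mean (pr (k + i)) (fun t => ind1 (I i) (x a (pr (k + i)) t)))| ≤
            C * lam δ n K := by
  classical
  obtain ⟨κ, C, h1, h2, h3, H⟩ := boxes_seq s (2 * s) ((4 * s ^ 2) ^ s) s hs δ hδ
  refine ⟨κ, C, h1, h2, h3, ?_⟩
  intro ι _ x hx v τ θ hv1 hτ hθ hv
  obtain ⟨E, hE1, hE2⟩ := H (qs s) (qs_le s hs) (qs_coprime s)
    (fun a k n i => x a (pr (k + i)) n) (by
      intro a k n
      funext i
      have hd : pr (k + i) ∣ qs s k := dvd_prod_of_mem (fun i : Fin s => pr (k + i)) (mem_univ i)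
      obtain ⟨c, hc⟩ := hd
      have h4 := per_mod (hx a (pr (k + i))) (n + qs s k)
      have h5 := per_mod (hx a (pr (k + i))) n
      rw [← h4, ← h5, hc, Nat.add_mul_mod_self_left]) v τ θ hv1 hτ hθ hv
  refine ⟨E, hE1, fun α hα hαE a => ?_⟩
  obtain ⟨i₀, hi⟩ := hE2 α hα hαE a
  refine ⟨i₀, fun i hii n hn => ?_⟩
  obtain ⟨h6, h7⟩ := hi i hii n hn
  refine ⟨h6, fun K hK I hI => ?_⟩
  have h := h7 K hK I hI
  have e : ∑ k ∈ range K, (ind I (fun i : Fin s => x a (pr (k + i)) n) -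
      ∏ i : Fin s, mean (pr (k + i)) (fun t => ind1 (I i) (x a (pr (k + i)) t))) =
      ∑ k ∈ range K, (ind I (fun i : Fin s => x a (pr (k + i)) n) -
        mean (qs s k) (fun t => ind I (fun i : Fin s => x a (pr (k + i)) t))) := by
    refine sum_congr rfl fun k _ => ?_
    rw [mean_prod s k (x a) (hx a) I]
  rw [e]
  exact h

theorem countable_int_poly : Countable (Polynomial ℤ) := by
  rw [← Cardinal.mk_le_aleph0_iff]
  refine Polynomial.cardinalMk_le_max.trans ?_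
  simp

end Pool.Agent.X35.GM
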