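import Pool.Agent.X35.GM.Seq2

/-! Vector valued statistics at consecutive primes: for almost all arguments (power saving), and for all arguments close to the
members of a thin sequence. -/

set_option autoImplicit false

namespace Pool.Agent.X35.GM

open Finset Pool.Agent.TH869.SQ Pool.Agent.TH869.EVF

open Classical in
/-- the number of the `k < K` with the vectors at the primes no. `k, ..., k + s - 1` in the boxes `I 0, ..., I (s - 1)` -/
noncomputable def cnt {s g : ℕ} (x : ℕ → Fin g → ℝ) (I : Fin s → Fin g → Set ℝ) (K : ℕ) : ℕ :=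
  ((range K).filter (fun k => ∀ (i : Fin s) (j : Fin g), x (Nat.nth Nat.Prime (k + i)) j ∈ I i j)).card

open Classical in
/-- the proportion of the residues with the vector in the box `J` -/
noncomputable def prp {g : ℕ} (x : ℕ → Fin g → ℝ) (p : ℕ) (J : Fin g → Set ℝ) : ℝ :=
  ((range p).filter (fun t : ℕ => ∀ j : Fin g, x t j ∈ J j)).card / p

/-- the expected number -/
noncomputable def mdl {s g : ℕ} (x : ℕ → ℕ → Fin g → ℝ) (I : Fin s → Fin g → Set ℝ) (K : ℕ) : ℝ :=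
  ∑ k ∈ range K, ∏ i : Fin s, prp (x (Nat.nth Nat.Prime (k + i))) (Nat.nth Nat.Prime (k + i)) (I i)

/-- the flattened vector -/
noncomputable def fl {s g : ℕ} (x : ℕ → ℕ → Fin g → ℝ) (k n : ℕ) : Fin (s * g) → ℝ := fun l =>
  x (pr (k + (finProdFinEquiv.symm l).1)) n (finProdFinEquiv.symm l).2

/-- the flattened box -/
def flI {s g : ℕ} (I : Fin s → Fin g → Set ℝ) : Fin (s * g) → Set ℝ := fun l =>
  I (finProdFinEquiv.symm l).1 (finProdFinEquiv.symm l).2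

theorem fl_iff {s g : ℕ} (x : ℕ → ℕ → Fin g → ℝ) (I : Fin s → Fin g → Set ℝ) (k n : ℕ) :
    (∀ l, fl x k n l ∈ flI I l) ↔ ∀ (i : Fin s) (j : Fin g), x (pr (k + i)) n j ∈ I i j := by
  constructor
  · intro h i j
    have := h (finProdFinEquiv (i, j))
    unfold fl flI at this
    simpa using this
  · intro h l
    exact h _ _

theorem ind_fl {s g : ℕ} (x : ℕ → ℕ → Fin g → ℝ) (I : Fin s → Fin g → Set ℝ) (k n : ℕ) :
    ind (flI I) (fl x k n) = ∏ i : Fin s, ind (I i) (x (pr (k + i)) n) := by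
  classical
  unfold ind
  by_cases h : ∀ (i : Fin s) (j : Fin g), x (pr (k + i)) n j ∈ I i j
  · rw [if_pos ((fl_iff x I k n).2 h), prod_eq_one]
    intro i _
    rw [if_pos (h i)]
  · rw [if_neg (fun h' => h ((fl_iff x I k n).1 h'))]
    push Not at h
    obtain ⟨i, j, hij⟩ := h
    rw [prod_eq_zero (mem_univ i)]
    rw [if_neg (fun h' => hij (h' j))]

theorem mean_fl {s g : ℕ} (x : ℕ → ℕ → Fin g → ℝ) (hx : ∀ p n, x p (n + p) = x p n) (I : Fin s → Fin g → Set ℝ) (k : ℕ) :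
    mean (qs s k) (fun t => ind (flI I) (fl x k t)) = ∏ i : Fin s, prp (x (pr (k + i))) (pr (k + i)) (I i) := by
  classical
  have h := sum_prod_per (fun i : Fin s => pr (k + i)) (fun i t => ind (I i) (x (pr (k + i)) t))
    univ (fun i _ => (pr_prime _).pos) (by
      intro i _ j _ hij
      apply (Nat.coprime_primes (pr_prime _) (pr_prime _)).mpr
      intro he
      apply hij
      have := pr_inj he
      ext
      omega) (by
      intro i _ n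
      simp only
      rw [hx])
  have e : ∀ i : Fin s, prp (x (pr (k + i))) (pr (k + i)) (I i) = (∑ n ∈ range (pr (k + i)), ind (I i) (x (pr (k + i)) n)) / pr (k + i) := by
    intro i
    unfold prp ind
    rw [sum_boole]
  simp only [e, ind_fl]
  unfold mean
  rw [prod_div_distrib, ← h.2]
  simp only [qs]
  push_cast
  rfl

theorem cnt_eq {s g : ℕ} (x : ℕ → ℕ → Fin g → ℝ) (I : Fin s → Fin g → Set ℝ) (K n : ℕ) :
    (cnt (fun p => x p n) I K : ℝ) = ∑ k ∈ range K, ind (flI I) (fl x k n) := by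
  classical
  unfold cnt ind
  rw [sum_boole]
  congr 2
  apply filter_congr
  intro k _
  exact (fl_iff x I k n).symm

theorem sum_eq {s g : ℕ} (x : ℕ → ℕ → Fin g → ℝ) (hx : ∀ p n, x p (n + p) = x p n) (I : Fin s → Fin g → Set ℝ) (K n : ℕ) :
    (cnt (fun p => x p n) I K : ℝ) - mdl x I K =
      ∑ k ∈ range K, (ind (flI I) (fl x k n) - mean (qs s k) (fun t => ind (flI I) (fl x k t))) := by
  rw [sum_sub_distrib, cnt_eq]
  congr 1
  unfold mdl
  refine sum_congr rfl fun k _ => ?_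
  rw [mean_fl x hx I k]
  rfl

theorem fl_per {s g : ℕ} (x : ℕ → ℕ → Fin g → ℝ) (hx : ∀ p n, x p (n + p) = x p n) (k n : ℕ) :
    fl (s := s) x k (n + qs s k) = fl x k n := by
  funext l
  unfold fl
  set i := (finProdFinEquiv.symm l).1 with hi
  have hd : pr (k + i) ∣ qs s k := dvd_prod_of_mem (fun i : Fin s => pr (k + i)) (mem_univ i)
  obtain ⟨c, hc⟩ := hd
  have h4 := per_mod (hx (pr (k + i))) (n + qs s k)
  have h5 := per_mod (hx (pr (k + i))) n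
  rw [← h4, ← h5, hc, Nat.add_mul_mod_self_left]

/-- **almost all arguments** -/
theorem vecA (s g : ℕ) (hs : 1 ≤ s) (δ : ℝ) (hδ : 0 < δ) :
    ∃ κ C : ℝ, 0 < κ ∧ κ ≤ 1 ∧ 1 ≤ C ∧ ∀ x : ℕ → ℕ → Fin g → ℝ, (∀ p n, x p (n + p) = x p n) →
      ∀ N : ℕ, 1 ≤ N → ∃ E : Finset ℕ, (E.card : ℝ) ≤ C * (N : ℝ) ^ (1 - κ) ∧
        ∀ n : ℕ, n ≤ N → n ∉ E → ∀ K : ℕ, (K : ℝ) ≤ (N : ℝ) ^ κ →
          ∀ I : Fin s → Fin g → Set ℝ, (∀ i j, (I i j).OrdConnected) →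
            |(cnt (fun p => x p n) I K : ℝ) - mdl x I K| ≤ C * ((K : ℝ) ^ (1 / 2 + δ) * √(1 + Real.log N)) := by
  obtain ⟨κ, C, h1, h2, h3, H⟩ := boxes s (2 * s) ((4 * s ^ 2) ^ s) (s * g) hs δ hδ
  refine ⟨κ, C, h1, h2, h3, fun x hx N hN => ?_⟩
  obtain ⟨E, hE1, hE2⟩ := H (qs s) (qs_le s hs) (qs_coprime s) (fun k n => fl x k n) (fl_per x hx) N hN
  refine ⟨E, hE1, fun n hn hnE K hK I hI => ?_⟩
  rw [sum_eq x hx I K n]
  exact hE2 n hn hnE K hK (flI I) (fun l => hI _ _)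

/-- **all arguments close to a thin sequence** -/
theorem vecB (s g : ℕ) (hs : 1 ≤ s) (δ : ℝ) (hδ : 0 < δ) :
    ∃ κ C : ℝ, 0 < κ ∧ κ ≤ 1 ∧ 1 ≤ C ∧ ∀ {ι : Type} [Countable ι] (x : ι → ℕ → ℕ → Fin g → ℝ),
      (∀ a p n, x a p (n + p) = x a p n) →
      ∀ (v : ℕ → ℝ) (τ θ : ℝ), (∀ i, 1 ≤ v i) → 0 ≤ τ → θ < 1 → (∀ t : ℝ, τ < t → Summable (fun i => v i ^ (-t))) →
      ∃ E : Set ℝ, dimH E ≤ ENNReal.ofReal ((1 - κ + τ) / (1 - θ)) ∧ ∀ α : ℝ, 0 < α → α ∉ E → ∀ a : ι,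
        ∃ i₀ : ℕ, ∀ i : ℕ, i₀ ≤ i → ∀ n : ℕ, |(n : ℝ) - α * v i| ≤ (v i) ^ θ →
          ∀ K : ℕ, (K : ℝ) ≤ (n : ℝ) ^ κ → ∀ I : Fin s → Fin g → Set ℝ, (∀ i j, (I i j).OrdConnected) →
            |(cnt (fun p => x a p n) I K : ℝ) - mdl (x a) I K| ≤ C * ((K : ℝ) ^ (1 / 2 + δ) * √(1 + Real.log n)) := by
  obtain ⟨κ, C, h1, h2, h3, H⟩ := boxes_seq s (2 * s) ((4 * s ^ 2) ^ s) (s * g) hs δ hδ
  refine ⟨κ, C, h1, h2, h3, ?_⟩
  intro ι _ x hx v τ θ hv1 hτ hθ hv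
  obtain ⟨E, hE1, hE2⟩ := H (qs s) (qs_le s hs) (qs_coprime s) (fun a k n => fl (x a) k n)
    (fun a => fl_per (x a) (hx a)) v τ θ hv1 hτ hθ hv
  refine ⟨E, hE1, fun α hα hαE a => ?_⟩
  obtain ⟨i₀, hi₀⟩ := hE2 α hα hαE a
  refine ⟨i₀, fun i hi n hn K hK I hI => ?_⟩
  rw [sum_eq (x a) (hx a) I K n]
  exact (hi₀ i hi n hn).2 K hK (flI I) (fun l => hI _ _)

end Pool.Agent.X35.GM
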