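import Mathlib

/-! From the dyadic shells to the counting function of a set of integers. -/

set_option autoImplicit false

namespace Pool.Agent.X35.GM

open Finset

/-- the members of `S` with `2 ^ i ≤ |a| < 2 ^ (i + 1)` -/
def shell (S : Set ℤ) (i : ℕ) : Set ℤ := {a : ℤ | a ∈ S ∧ 2 ^ i ≤ |a| ∧ |a| < 2 ^ (i + 1)}

theorem shell_finite (S : Set ℤ) (i : ℕ) : (shell S i).Finite := by
  refine (Set.finite_Icc (-(2 ^ (i + 1)) : ℤ) (2 ^ (i + 1))).subset ?_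
  rintro a ⟨-, -, h⟩
  rw [abs_lt] at h
  exact ⟨h.1.le, h.2.le⟩

theorem log2_le {ε : ℝ} (hε : 0 < ε) {X : ℝ} (hX : 1 ≤ X) :
    ((Nat.log 2 ⌊X⌋₊ : ℕ) : ℝ) + 2 ≤ (2 / ε + 2) * X ^ ε := by
  have hX0 : 0 < X := by linarith
  have h1 : ((Nat.log 2 ⌊X⌋₊ : ℕ) : ℝ) ≤ Real.log X / Real.log 2 := by
    rw [le_div_iff₀ (Real.log_pos (by norm_num)), ← Real.log_rpow (by norm_num)]
    apply Real.log_le_log (by positivity)
    rw [Real.rpow_natCast]
    have h2 : 2 ^ Nat.log 2 ⌊X⌋₊ ≤ ⌊X⌋₊ := Nat.pow_log_le_self 2 (Nat.floor_pos.2 hX).ne'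
    calc ((2 : ℝ) ^ Nat.log 2 ⌊X⌋₊) ≤ ((⌊X⌋₊ : ℕ) : ℝ) := by exact_mod_cast h2
      _ ≤ X := Nat.floor_le hX0.le
  have h3 : Real.log X ≤ X ^ ε / ε := Real.log_le_rpow_div hX0.le hε
  have h4 : (1 : ℝ) / 2 ≤ Real.log 2 := by
    have := Real.log_two_gt_d9
    linarith
  have h5 : Real.log X / Real.log 2 ≤ 2 * Real.log X := by
    rw [div_le_iff₀ (by linarith)]
    have := Real.log_nonneg hX
    nlinarith
  have h6 : 1 ≤ X ^ ε := Real.one_le_rpow hX hε.le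
  have h7 : 2 * (X ^ ε / ε) = 2 / ε * X ^ ε := by ring
  nlinarith

theorem cumul (S : Set ℤ) {s : ℝ} (hs : 0 ≤ s)
    (h : ∀ ε : ℝ, 0 < ε → ∃ C : ℝ, ∀ i : ℕ, ((shell S i).ncard : ℝ) ≤ C * ((2 : ℝ) ^ i) ^ (s + ε)) :
    ∀ ε : ℝ, 0 < ε → ∃ C : ℝ, ∀ X : ℝ, 1 ≤ X →
      {t | t ∈ S ∧ |(t : ℝ)| ≤ X}.Finite ∧ ({t | t ∈ S ∧ |(t : ℝ)| ≤ X}.ncard : ℝ) ≤ C * X ^ (s + ε) := by
  classical
  intro ε hε
  obtain ⟨C, hC⟩ := h (ε / 2) (by positivity)
  refine ⟨(|C| + 1) * (2 / (ε / 2) + 2), fun X hX => ?_⟩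
  have hX0 : 0 < X := by linarith
  set L := Nat.log 2 ⌊X⌋₊ with hL
  have hsub : {t : ℤ | t ∈ S ∧ |(t : ℝ)| ≤ X} ⊆ (((range (L + 1)).biUnion fun i => (shell_finite S i).toFinset) ∪ {0} : Finset ℤ) := by
    rintro t ⟨ht, htX⟩
    rw [mem_coe, mem_union, mem_biUnion, mem_singleton]
    rcases eq_or_ne t 0 with h0 | h0
    · exact Or.inr h0
    left
    have h1 : t.natAbs ≠ 0 := Int.natAbs_ne_zero.2 h0
    have h2 : t.natAbs ≤ ⌊X⌋₊ := by
      apply Nat.le_floor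
      rw [Nat.cast_natAbs]
      exact_mod_cast htX
    refine ⟨Nat.log 2 t.natAbs, ?_, ?_⟩
    · rw [mem_range]
      exact Nat.lt_succ_of_le (Nat.log_mono_right h2)
    · rw [Set.Finite.mem_toFinset]
      refine ⟨ht, ?_, ?_⟩
      · have h3 := Nat.pow_log_le_self 2 h1
        rw [Int.abs_eq_natAbs]
        exact_mod_cast h3
      · have h3 := Nat.lt_pow_succ_log_self (b := 2) (by norm_num) t.natAbs
        rw [Int.abs_eq_natAbs]
        exact_mod_cast h3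
  refine ⟨(Finset.finite_toSet _).subset hsub, ?_⟩
  have h1 := Set.ncard_le_ncard hsub (Finset.finite_toSet _)
  rw [Set.ncard_coe_finset] at h1
  have h2 := h1.trans (card_union_le _ _)
  rw [card_singleton] at h2
  have h3 : ((((range (L + 1)).biUnion fun i => (shell_finite S i).toFinset).card : ℕ) : ℝ) ≤
      (L + 1) * (|C| * X ^ (s + ε / 2)) := by
    have h4 : (((range (L + 1)).biUnion fun i => (shell_finite S i).toFinset).card : ℝ) ≤
        ∑ i ∈ range (L + 1), (((shell_finite S i).toFinset.card : ℕ) : ℝ) := by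
      exact_mod_cast card_biUnion_le
    refine h4.trans ?_
    have h5 : ∀ i ∈ range (L + 1), (((shell_finite S i).toFinset.card : ℕ) : ℝ) ≤ |C| * X ^ (s + ε / 2) := by
      intro i hi
      rw [mem_range] at hi
      rw [← Set.ncard_eq_toFinset_card (shell S i) (shell_finite S i)]
      refine (hC i).trans ?_
      have h6 : ((2 : ℝ) ^ i) ≤ X := by
        have h7 : 2 ^ i ≤ ⌊X⌋₊ := (Nat.pow_le_pow_right (by norm_num) (Nat.lt_succ_iff.1 hi)).trans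
          (Nat.pow_log_le_self 2 (Nat.floor_pos.2 hX).ne')
        calc ((2 : ℝ) ^ i) ≤ ((⌊X⌋₊ : ℕ) : ℝ) := by exact_mod_cast h7
          _ ≤ X := Nat.floor_le hX0.le
      calc C * ((2 : ℝ) ^ i) ^ (s + ε / 2) ≤ |C| * ((2 : ℝ) ^ i) ^ (s + ε / 2) :=
            mul_le_mul_of_nonneg_right (le_abs_self C) (by positivity)
        _ ≤ |C| * X ^ (s + ε / 2) := by
            apply mul_le_mul_of_nonneg_left _ (abs_nonneg C)
            exact Real.rpow_le_rpow (by positivity) h6 (by positivity)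
    refine (sum_le_sum h5).trans ?_
    rw [sum_const, card_range, nsmul_eq_mul]
    push_cast
    exact le_rfl
  have h8 := log2_le (ε := ε / 2) (by positivity) hX
  rw [← hL] at h8
  have h9 : (1 : ℝ) ≤ X ^ (s + ε / 2) := Real.one_le_rpow hX (by positivity)
  have h10 : (({t : ℤ | t ∈ S ∧ |(t : ℝ)| ≤ X}.ncard : ℕ) : ℝ) ≤ (L + 1) * (|C| * X ^ (s + ε / 2)) + 1 := by
    have : (({t : ℤ | t ∈ S ∧ |(t : ℝ)| ≤ X}.ncard : ℕ) : ℝ) ≤
      ((((range (L + 1)).biUnion fun i => (shell_finite S i).toFinset).card : ℕ) : ℝ) + 1 := by exact_mod_cast h2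
    linarith
  refine h10.trans ?_
  have hsplit : X ^ (s + ε) = X ^ (s + ε / 2) * X ^ (ε / 2) := by
    rw [← Real.rpow_add hX0]
    congr 1
    ring
  rw [hsplit]
  have hL0 : (0 : ℝ) ≤ L := Nat.cast_nonneg _
  have hC0 := abs_nonneg C
  have h11 : (L + 1) * (|C| * X ^ (s + ε / 2)) + 1 ≤ ((L : ℝ) + 2) * ((|C| + 1) * X ^ (s + ε / 2)) := by nlinarith
  refine h11.trans ?_
  calc ((L : ℝ) + 2) * ((|C| + 1) * X ^ (s + ε / 2)) ≤ ((2 / (ε / 2) + 2) * X ^ (ε / 2)) * ((|C| + 1) * X ^ (s + ε / 2)) :=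
        mul_le_mul_of_nonneg_right h8 (by positivity)
    _ = (|C| + 1) * (2 / (ε / 2) + 2) * (X ^ (s + ε / 2) * X ^ (ε / 2)) := by ring

end Pool.Agent.X35.GM
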