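import Pool.Agent.X35.GM.Cumul
import Pool.Agent.Y854.GM.Win
import Pool.Agent.TH869.SQ.Cs

/-! Boxes for functions with coprime periods, for all the integers close to the members of a thin sequence. -/

set_option autoImplicit false

namespace Pool.Agent.X35.GM

open Finset Pool.Agent.TH869.SQ Pool.Agent.TH869.EVF

open Classical in
/-- from the dyadic intervals to the counting function of a set of natural numbers -/
theorem cumul_nat (P : Set ℕ) {s : ℝ} (hs : 0 ≤ s) (C : ℝ)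
    (h : ∀ i : ℕ, (((Ico (2 ^ i) (2 ^ (i + 1))).filter (fun t => t ∈ P)).card : ℝ) ≤ C * ((2 : ℝ) ^ i) ^ s) :
    ∀ ε : ℝ, 0 < ε → ∃ C : ℝ, ∀ X : ℕ, 1 ≤ X →
      (((Ioc 0 X).filter (fun t => t ∈ P)).card : ℝ) ≤ C * (X : ℝ) ^ (s + ε) := by
  intro ε hε
  refine ⟨|C| * (2 / ε + 2), fun X hX => ?_⟩
  have hXr : (1 : ℝ) ≤ X := by exact_mod_cast hX
  have hX0 : (0 : ℝ) < X := by linarith
  set L := Nat.log 2 X with hL
  have hsub : (Ioc 0 X).filter (fun t => t ∈ P) ⊆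
      (range (L + 1)).biUnion fun i => (Ico (2 ^ i) (2 ^ (i + 1))).filter (fun t => t ∈ P) := by
    intro t ht
    rw [mem_filter, mem_Ioc] at ht
    rw [mem_biUnion]
    refine ⟨Nat.log 2 t, ?_, ?_⟩
    · rw [mem_range]
      exact Nat.lt_succ_of_le (Nat.log_mono_right ht.1.2)
    · rw [mem_filter, mem_Ico]
      exact ⟨⟨Nat.pow_log_le_self 2 (by omega), Nat.lt_pow_succ_log_self (by norm_num) t⟩, ht.2⟩
  have h1 : ((((Ioc 0 X).filter (fun t => t ∈ P)).card : ℕ) : ℝ) ≤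
      ∑ i ∈ range (L + 1), ((((Ico (2 ^ i) (2 ^ (i + 1))).filter (fun t => t ∈ P)).card : ℕ) : ℝ) := by
    exact_mod_cast (card_le_card hsub).trans card_biUnion_le
  refine h1.trans ?_
  have h5 : ∀ i ∈ range (L + 1), ((((Ico (2 ^ i) (2 ^ (i + 1))).filter (fun t => t ∈ P)).card : ℕ) : ℝ) ≤
      |C| * (X : ℝ) ^ s := by
    intro i hi
    rw [mem_range] at hi
    refine (h i).trans ?_
    have h6 : ((2 : ℝ) ^ i) ≤ X := by
      have h7 : 2 ^ i ≤ X := (Nat.pow_le_pow_right (by norm_num) (Nat.lt_succ_iff.1 hi)).trans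
        (Nat.pow_log_le_self 2 (by omega))
      exact_mod_cast h7
    calc C * ((2 : ℝ) ^ i) ^ s ≤ |C| * ((2 : ℝ) ^ i) ^ s :=
          mul_le_mul_of_nonneg_right (le_abs_self C) (by positivity)
      _ ≤ |C| * (X : ℝ) ^ s := by
          apply mul_le_mul_of_nonneg_left _ (abs_nonneg C)
          exact Real.rpow_le_rpow (by positivity) h6 hs
  refine (sum_le_sum h5).trans ?_
  rw [sum_const, card_range, nsmul_eq_mul]
  have h8 := log2_le hε hXr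
  rw [Nat.floor_natCast, ← hL] at h8
  rw [Real.rpow_add hX0]
  push_cast
  have hC := abs_nonneg C
  have h9 : 0 ≤ |C| * (X : ℝ) ^ s := by positivity
  calc ((L : ℝ) + 1) * (|C| * (X : ℝ) ^ s) ≤ ((2 / ε + 2) * (X : ℝ) ^ ε) * (|C| * (X : ℝ) ^ s) :=
        mul_le_mul_of_nonneg_right (by linarith) h9
    _ = |C| * (2 / ε + 2) * ((X : ℝ) ^ s * (X : ℝ) ^ ε) := by ring

/-- the comparison of the count with the expected count -/
def Fit {m : ℕ} (q : ℕ → ℕ) (x : ℕ → ℕ → Fin m → ℝ) (C δ : ℝ) (n K : ℕ) : Prop :=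
  ∀ I : Fin m → Set ℝ, (∀ i, (I i).OrdConnected) →
    |∑ k ∈ range K, (ind I (x k n) - mean (q k) (fun t => ind I (x k t)))| ≤ C * lam δ n K

/-- **boxes along sequences** -/
theorem boxes_seq (s B D m : ℕ) (hs : 1 ≤ s) (δ : ℝ) (hδ : 0 < δ) :
    ∃ κ C : ℝ, 0 < κ ∧ κ ≤ 1 ∧ 1 ≤ C ∧ ∀ {ι : Type} [Countable ι] (q : ℕ → ℕ),
      (∀ k, 0 < q k ∧ q k ≤ D * (k + 1) ^ B) →
      (∀ j k, j + s ≤ k → Nat.Coprime (q j) (q k)) → ∀ x : ι → ℕ → ℕ → Fin m → ℝ,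
      (∀ a k n, x a k (n + q k) = x a k n) →
      ∀ (v : ℕ → ℝ) (τ θ : ℝ), (∀ i, 1 ≤ v i) → 0 ≤ τ → θ < 1 → Pool.Agent.Y854.GM.ExpLe v τ →
      ∃ E : Set ℝ, dimH E ≤ ENNReal.ofReal ((1 - κ + τ) / (1 - θ)) ∧ ∀ α : ℝ, 0 < α → α ∉ E → ∀ a : ι,
        ∃ i₀ : ℕ, ∀ i : ℕ, i₀ ≤ i → ∀ n : ℕ, |(n : ℝ) - α * v i| ≤ (v i) ^ θ →
          0 < n ∧ ∀ K : ℕ, (K : ℝ) ≤ (n : ℝ) ^ κ → Fit q (x a) C δ n K := by
  classical
  obtain ⟨κ, C, hκ0, hκ1, hC, H⟩ := boxes s B D m hs δ hδ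
  refine ⟨κ, 2 * C, hκ0, hκ1, by linarith, ?_⟩
  intro ι _ q hq hcop x hx v τ θ hv1 hτ hθ hv
  have key : ∀ a : ι, ∃ E : Set ℝ, dimH E ≤ ENNReal.ofReal ((1 - κ + τ) / (1 - θ)) ∧ ∀ α : ℝ, 0 < α → α ∉ E →
      ∃ n0 : ℕ, ∀ n : ℕ, n0 ≤ n → ∀ m' : ℕ, |(m' : ℝ) - α * v n| ≤ (v n) ^ θ → 0 < m' ∧
        m' ∉ {n : ℕ | ¬ ∀ K : ℕ, (K : ℝ) ≤ (n : ℝ) ^ κ → Fit q (x a) (2 * C) δ n K} := by
    intro a
    obtain ⟨P, hP⟩ : ∃ P : Set ℕ, P = {n : ℕ | ¬ ∀ K : ℕ, (K : ℝ) ≤ (n : ℝ) ^ κ → Fit q (x a) (2 * C) δ n K} := ⟨_, rfl⟩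
    rw [← hP]
    refine Pool.Agent.Y854.GM.win_nat _ hv1 hτ hv (by linarith) hθ ?_
    refine cumul_nat _ (by linarith) (2 * C) fun i => ?_
    have hN : 1 ≤ 2 ^ (i + 1) := Nat.one_le_two_pow
    obtain ⟨E, hE1, hE2⟩ := H q hq hcop (x a) (hx a) (2 ^ (i + 1)) hN
    have hsub : (Ico (2 ^ i) (2 ^ (i + 1))).filter (fun t => t ∈ P) ⊆ E := by
      intro n hn
      rw [mem_filter, mem_Ico, hP] at hn
      by_contra hnE
      apply hn.2
      intro K hK I hI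
      have hn1 : 1 ≤ n := le_trans Nat.one_le_two_pow hn.1.1
      have hnr : (1 : ℝ) ≤ n := by exact_mod_cast hn1
      have hK2 : (K : ℝ) ≤ ((2 ^ (i + 1) : ℕ) : ℝ) ^ κ := by
        refine hK.trans (Real.rpow_le_rpow (by positivity) ?_ hκ0.le)
        exact_mod_cast hn.1.2.le
      have h1 := hE2 n hn.1.2.le hnE K hK2 I hI
      refine h1.trans ?_
      have h2 : lam δ (2 ^ (i + 1)) K ≤ 2 * lam δ n K := by
        unfold lam
        have h3 : √(1 + Real.log ((2 ^ (i + 1) : ℕ) : ℝ)) ≤ 2 * √(1 + Real.log n) := by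
          have h4 : 2 * √(1 + Real.log n) = √(4 * (1 + Real.log n)) := by
            rw [Real.sqrt_mul (by norm_num)]
            congr 1
            rw [show (4 : ℝ) = 2 ^ 2 by norm_num, Real.sqrt_sq (by norm_num)]
          rw [h4]
          apply Real.sqrt_le_sqrt
          have h5 : Real.log ((2 ^ (i + 1) : ℕ) : ℝ) ≤ Real.log (2 * n) := by
            apply Real.log_le_log (by positivity)
            have h6 : 2 ^ (i + 1) ≤ 2 * n := by
              rw [pow_succ]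
              omega
            exact_mod_cast h6
          rw [Real.log_mul (by norm_num) (by linarith)] at h5
          have h7 : Real.log 2 ≤ 1 := by
            have := Real.log_two_lt_d9
            linarith
          have h8 : 0 ≤ Real.log n := Real.log_nonneg hnr
          linarith
        calc (K : ℝ) ^ (1 / 2 + δ) * √(1 + Real.log ((2 ^ (i + 1) : ℕ) : ℝ))
            ≤ (K : ℝ) ^ (1 / 2 + δ) * (2 * √(1 + Real.log n)) := by gcongr
          _ = _ := by ring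
      calc C * lam δ (2 ^ (i + 1)) K ≤ C * (2 * lam δ n K) := mul_le_mul_of_nonneg_left h2 (by linarith)
        _ = 2 * C * lam δ n K := by ring
    have h1 : ((((Ico (2 ^ i) (2 ^ (i + 1))).filter (fun t => t ∈ P)).card : ℕ) : ℝ) ≤ E.card := by
      exact_mod_cast card_le_card hsub
    refine h1.trans (hE1.trans ?_)
    have h2 : (((2 ^ (i + 1) : ℕ) : ℝ)) ^ (1 - κ) ≤ 2 * ((2 : ℝ) ^ i) ^ (1 - κ) := by
      push_cast
      rw [pow_succ, mul_comm, Real.mul_rpow (by norm_num) (by positivity)]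
      have h3 : (2 : ℝ) ^ (1 - κ) ≤ 2 := by
        calc (2 : ℝ) ^ (1 - κ) ≤ (2 : ℝ) ^ (1 : ℝ) := Real.rpow_le_rpow_of_exponent_le (by norm_num) (by linarith)
          _ = 2 := Real.rpow_one 2
      gcongr
    calc C * (((2 ^ (i + 1) : ℕ) : ℝ)) ^ (1 - κ) ≤ C * (2 * ((2 : ℝ) ^ i) ^ (1 - κ)) :=
          mul_le_mul_of_nonneg_left h2 (by linarith)
      _ = 2 * C * ((2 : ℝ) ^ i) ^ (1 - κ) := by ring
  choose E hE hE2 using key
  refine ⟨⋃ a, E a, ?_, fun α hα hαE a => ?_⟩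
  · rw [dimH_iUnion]
    exact iSup_le hE
  · obtain ⟨n0, hn0⟩ := hE2 a α hα (fun h => hαE (Set.mem_iUnion.2 ⟨a, h⟩))
    refine ⟨n0, fun i hi n hn => ?_⟩
    obtain ⟨h1, h2⟩ := hn0 i hi n hn
    refine ⟨h1, ?_⟩
    by_contra hcon
    exact h2 hcon

end Pool.Agent.X35.GM
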